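import Pool.Agent.Work.MP_909527_an_helper80.G1

/-!
# MP_909527_an, block G2: the Laplacian bound (radial Riccati inequality)
-/

set_option autoImplicit false
set_option maxSynthPendingDepth 3

open MeasureTheory Set Filter Topology
open scoped ContDiff InnerProductSpace

namespace Pool.Agent.MP909527

namespace Geo

variable {N : ℕ} (M : NormalMetric N)

/-! ### The Christoffel symbols as a smooth bilinear map -/

noncomputable def Dg (y : E N) : E N →L[ℝ] E N →L[ℝ] E N →L[ℝ] ℝ := fderiv ℝ M.g y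

lemma smooth_Dg : ContDiff ℝ ∞ (Dg M) := M.smooth.fderiv_right (m := ∞) (by simp)

noncomputable def Sc (y : E N) : E N →L[ℝ] E N →L[ℝ] E N →L[ℝ] ℝ :=
  (1 / 2 : ℝ) • (Dg M y + (Dg M y).flip -
    ((ContinuousLinearMap.flipₗᵢ ℝ (E N) (E N) ℝ : (E N →L[ℝ] E N →L[ℝ] ℝ) →L[ℝ] (E N →L[ℝ] E N →L[ℝ] ℝ)).comp
      (Dg M y).flip))

lemma Sc_apply (y v w z : E N) : Sc M y v w z =
    (1 / 2) * (Dg M y v w z + Dg M y w v z - Dg M y z v w) := rfl

lemma smooth_Sc : ContDiff ℝ ∞ (Sc M) := by
  have h1 := smooth_Dg M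
  have h2 : ContDiff ℝ ∞ (fun y => (Dg M y).flip) :=
    (ContinuousLinearMap.flipₗᵢ ℝ (E N) (E N) (E N →L[ℝ] ℝ)).contDiff.comp h1
  exact ((h1.add h2).sub (contDiff_const.clm_comp h2)).const_smul (1 / 2 : ℝ)

/-- The Christoffel symbols. -/
noncomputable def Gc (y : E N) : E N →L[ℝ] E N →L[ℝ] E N :=
  ((ContinuousLinearMap.compL ℝ (E N) (E N →L[ℝ] ℝ) (E N)) (M.g y).inverse).comp (Sc M y)

lemma Gc_apply (y v w : E N) : Gc M y v w = M.christoffel y v w := rfl

lemma smooth_Gc : ContDiff ℝ ∞ (Gc M) := by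
  have h1 : ContDiff ℝ ∞ (fun y => (ContinuousLinearMap.compL ℝ (E N) (E N →L[ℝ] ℝ) (E N))
      (M.g y).inverse) := (ContinuousLinearMap.compL ℝ (E N) (E N →L[ℝ] ℝ) (E N)).contDiff.comp
        (smooth_inverse M)
  exact h1.clm_comp (smooth_Sc M)

lemma g_Gc (y v w z : E N) : M.g y (Gc M y v w) z =
    (1 / 2) * (Dg M y v w z + Dg M y w v z - Dg M y z v w) := by
  have : M.g y (Gc M y v w) = Sc M y v w := g_inverse M y _
  rw [this, Sc_apply]

lemma hasFDerivAt_g (y : E N) : HasFDerivAt M.g (Dg M y) y :=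
  (M.smooth.differentiable (by simp)).differentiableAt.hasFDerivAt

lemma Dg_symm (y u v w : E N) : Dg M y u v w = Dg M y u w v := by
  have h : ∀ a b : E N, HasFDerivAt (fun p => M.g p a b)
      (((ContinuousLinearMap.apply ℝ ℝ b).comp (ContinuousLinearMap.apply ℝ (E N →L[ℝ] ℝ) a)).comp
        (Dg M y)) y := fun a b =>
    (((ContinuousLinearMap.apply ℝ ℝ b).comp
      (ContinuousLinearMap.apply ℝ (E N →L[ℝ] ℝ) a)).hasFDerivAt).comp y (hasFDerivAt_g M y)
  have h1 := h v w
  have h2 := h w v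
  have e1 : (fun p => M.g p v w) = fun p => M.g p w v := by
    ext p
    exact M.symm p v w
  rw [e1] at h1
  have := congrArg (fun T : E N →L[ℝ] ℝ => T u) (h1.unique h2)
  exact this

lemma gauss_deriv (y v z : E N) : Dg M y v y z = ⟪v, z⟫_ℝ - M.g y v z := by
  have h1 : HasFDerivAt (fun p => M.g p p) _ y := (hasFDerivAt_g M y).clm_apply (hasFDerivAt_id y)
  have h2 := ((ContinuousLinearMap.apply ℝ ℝ z).hasFDerivAt).comp y h1
  have h3 : HasFDerivAt (fun p : E N => ⟪p, z⟫_ℝ) ((innerSL ℝ).flip z) y :=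
    ((innerSL ℝ : E N →L[ℝ] E N →L[ℝ] ℝ).flip z).hasFDerivAt
  have e1 : (fun p : E N => ⟪p, z⟫_ℝ) = (ContinuousLinearMap.apply ℝ ℝ z) ∘ fun p => M.g p p := by
    ext p
    exact (M.gauss p z).symm
  rw [e1] at h3
  have := congrArg (fun T : E N →L[ℝ] ℝ => T v) (h2.unique h3)
  simp at this
  rw [innerSL_apply_apply, real_inner_comm] at this
  linarith

lemma Gc_symm (y v w : E N) : Gc M y v w = Gc M y w v := by
  apply g_inj M y
  ext z
  rw [g_Gc, g_Gc, Dg_symm M y z v w]
  ring

lemma Gc_yy (y : E N) : Gc M y y y = 0 := by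
  apply g_inj M y
  ext z
  rw [g_Gc, map_zero]
  have h1 : Dg M y y y z = 0 := by rw [gauss_deriv, M.gauss, sub_self]
  have h2 : Dg M y z y y = 0 := by
    rw [gauss_deriv, M.symm, M.gauss, real_inner_comm, sub_self]
  rw [h1, h2]
  simp

lemma g_B (y v z : E N) : M.g y (Gc M y y v) z = (1 / 2) * Dg M y y v z := by
  rw [g_Gc, gauss_deriv M y v z, gauss_deriv M y z v, M.symm y z v, real_inner_comm]
  ring

/-- `B` is self-adjoint. -/
lemma B_symm (y v z : E N) : M.g y (Gc M y y v) z = M.g y v (Gc M y y z) := by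
  rw [M.symm y v, g_B, g_B, Dg_symm]

/-- derivative of the Christoffel symbols -/
noncomputable def DG (y : E N) : E N →L[ℝ] E N →L[ℝ] E N →L[ℝ] E N := fderiv ℝ (Gc M) y

lemma hasFDerivAt_Gc (y : E N) : HasFDerivAt (Gc M) (DG M y) y :=
  ((smooth_Gc M).differentiable (by simp)).differentiableAt.hasFDerivAt

lemma fderiv_chr (y a b u : E N) : fderiv ℝ (fun p => M.christoffel p a b) y u = DG M y u a b := by
  have h : HasFDerivAt (fun p => Gc M p a b)
      (((ContinuousLinearMap.apply ℝ (E N) b).comp (ContinuousLinearMap.apply ℝ (E N →L[ℝ] E N) a)).comp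
        (DG M y)) y :=
    (((ContinuousLinearMap.apply ℝ (E N) b).comp
      (ContinuousLinearMap.apply ℝ (E N →L[ℝ] E N) a)).hasFDerivAt).comp y (hasFDerivAt_Gc M y)
  have e1 : (fun p => M.christoffel p a b) = fun p => Gc M p a b := rfl
  rw [e1, h.fderiv]
  rfl

lemma DG_symm (y u v w : E N) : DG M y u v w = DG M y u w v := by
  rw [← fderiv_chr, ← fderiv_chr]
  congr 2
  ext1 p
  exact Gc_symm M p v w

lemma DG_yy (y v : E N) : DG M y v y y = -(2 : ℝ) • Gc M y y v := by
  have h1 : HasFDerivAt (fun p => Gc M p p) _ y := (hasFDerivAt_Gc M y).clm_apply (hasFDerivAt_id y)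
  have h2 : HasFDerivAt (fun p => Gc M p p p) _ y := h1.clm_apply (hasFDerivAt_id y)
  have e1 : (fun p => Gc M p p p) = fun _ => (0 : E N) := by
    ext1 p
    exact Gc_yy M p
  rw [e1] at h2
  have h3 : HasFDerivAt (fun _ : E N => (0 : E N)) (0 : E N →L[ℝ] E N) y := hasFDerivAt_const _ _
  have := congrArg (fun T : E N →L[ℝ] E N => T v) (h2.unique h3)
  simp at this
  rw [Gc_symm M y v y] at this
  have h4 : DG M y v y y + Gc M y y v + Gc M y y v = 0 := by
    rw [← this]
    abel
  rw [neg_smul, two_smul]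
  exact eq_neg_of_add_eq_zero_left (by rw [← add_assoc]; exact h4)

/-- The curvature in radial directions. -/
lemma curv_radial (y v : E N) : M.curv y v y y =
    -(Gc M y y v + Gc M y y v + DG M y y y v + Gc M y y (Gc M y y v)) := by
  unfold NormalMetric.curv
  rw [fderiv_chr, fderiv_chr, ← Gc_apply, ← Gc_apply, ← Gc_apply, ← Gc_apply, Gc_yy, map_zero, DG_yy,
    DG_symm M y y v y, Gc_symm M y v y, neg_smul, two_smul]
  abel

/-! ### Linear algebra: traces -/

/-- trace of an endomorphism -/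
noncomputable def tr (T : E N →L[ℝ] E N) : ℝ := ∑ i, (T (e i)) i

open scoped MatrixOrder in
lemma exists_sq {G : Matrix (Fin N) (Fin N) ℝ} (hG : G.PosSemidef) :
    ∃ P : Matrix (Fin N) (Fin N) ℝ, G = P.transpose * P := by
  refine ⟨CFC.sqrt G, ?_⟩
  have h1 : (CFC.sqrt G).PosSemidef := Matrix.nonneg_iff_posSemidef.1 (CFC.sqrt_nonneg G)
  have h2 : (CFC.sqrt G).conjTranspose = CFC.sqrt G := h1.isHermitian
  have h3 : (CFC.sqrt G).transpose = (CFC.sqrt G).conjTranspose := by
    ext i j
    simp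
  rw [h3, h2, CFC.sqrt_mul_sqrt_self G hG.nonneg]

/-- A `g`-orthonormal frame computes the trace. -/
lemma exists_frame (y : E N) : ∃ f : Fin N → E N, (∀ i, M.g y (f i) (f i) = 1) ∧
    ∀ T : E N →L[ℝ] E N, tr T = ∑ i, M.g y (T (f i)) (f i) := by
  obtain ⟨P, hP⟩ := exists_sq (Gm_posDef M y).posSemidef
  have hdet : P.det ≠ 0 := by
    intro h
    have := det_pos M y
    rw [hP, Matrix.det_mul, Matrix.det_transpose, h] at this
    simp at this
  set S := P⁻¹ with hS
  have hPS : P * S = 1 := Matrix.mul_nonsing_inv P (Ne.isUnit hdet)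
  have hSP : S * P = 1 := Matrix.nonsing_inv_mul P (Ne.isUnit hdet)
  set f : Fin N → E N := fun j => WithLp.toLp 2 (fun k => S k j) with hf
  have hg : ∀ (A : Matrix (Fin N) (Fin N) ℝ) (v : E N) (i : Fin N), (∀ k, v k = (A * S) k i) →
      M.g y v (f i) = ((A * S).transpose * (Gm M y) * S) i i := by
    intro A v i hv
    rw [g_eq_sum]
    simp only [hv, Matrix.mul_apply (M := (A * S).transpose * (Gm M y)),
      Matrix.mul_apply (M := (A * S).transpose), Matrix.transpose_apply, Finset.sum_mul]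
    rw [Finset.sum_comm]
  refine ⟨f, ?_, ?_⟩
  · intro i
    rw [hg 1 (f i) i (by intro k; simp [hf])]
    rw [Matrix.one_mul, hP]
    have : S.transpose * (P.transpose * P) * S = 1 := by
      rw [← Matrix.mul_assoc, ← Matrix.transpose_mul, hPS, Matrix.transpose_one, Matrix.one_mul, hPS]
    rw [this]
    simp
  · intro T
    set A : Matrix (Fin N) (Fin N) ℝ := Matrix.of fun l k => (T (e k)) l with hA
    have h1 : ∀ i, M.g y (T (f i)) (f i) = ((A * S).transpose * (Gm M y) * S) i i := by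
      intro i
      apply hg A (T (f i)) i
      intro k
      conv_lhs => rw [e_decomp (f i)]
      simp only [map_sum, map_smul, Matrix.mul_apply, hA, Matrix.of_apply, hf]
      simp [mul_comm]
    simp only [h1]
    have h2 : ∑ i, ((A * S).transpose * (Gm M y) * S) i i = Matrix.trace ((A * S).transpose * (Gm M y) * S) := rfl
    rw [h2, hP]
    have h3 : (A * S).transpose * (P.transpose * P) * S = (P * (A * S)).transpose := by
      rw [← Matrix.mul_assoc, Matrix.mul_assoc _ P S, hPS, Matrix.mul_one, Matrix.transpose_mul P]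
    rw [h3, Matrix.trace_transpose, Matrix.trace_mul_comm, Matrix.mul_assoc, hSP, Matrix.mul_one]
    rfl

lemma tr_le {T : E N →L[ℝ] E N} {y : E N} {κ : ℝ} (h : ∀ v, M.g y (T v) v ≤ κ * M.g y v v) :
    tr T ≤ N * κ := by
  obtain ⟨f, hf1, hf2⟩ := exists_frame M y
  rw [hf2]
  calc ∑ i, M.g y (T (f i)) (f i) ≤ ∑ i : Fin N, κ := by
        apply Finset.sum_le_sum
        intro i _
        have := h (f i)
        rwa [hf1, mul_one] at this
    _ = N * κ := by simp

lemma g_cs (y v w : E N) : M.g y v w ^ 2 ≤ M.g y v v * M.g y w w := by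
  by_cases hw : w = 0
  · simp [hw]
  have hw' := M.pos y w hw
  have h1 : 0 ≤ M.g y ((M.g y w w) • v - (M.g y v w) • w) ((M.g y w w) • v - (M.g y v w) • w) := by
    by_cases h : (M.g y w w) • v - (M.g y v w) • w = 0
    · rw [h]; simp
    · exact (M.pos y _ h).le
  simp only [map_sub, map_smul, sub_apply, smul_apply, smul_eq_mul] at h1
  rw [M.symm y w v] at h1
  have h2 : 0 ≤ M.g y w w * (M.g y v v * M.g y w w - M.g y v w ^ 2) := by nlinarith
  have h3 := nonneg_of_mul_nonneg_right h2 hw'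
  linarith

lemma tr_sq {B : E N →L[ℝ] E N} {y : E N} (hB : ∀ v w, M.g y (B v) w = M.g y v (B w)) :
    tr B ^ 2 ≤ N * tr (B.comp B) := by
  obtain ⟨f, hf1, hf2⟩ := exists_frame M y
  rw [hf2, hf2]
  have h1 : ∀ i, M.g y (B (f i)) (f i) ^ 2 ≤ M.g y ((B.comp B) (f i)) (f i) := by
    intro i
    have := g_cs M y (B (f i)) (f i)
    rw [hf1, mul_one] at this
    refine this.trans (le_of_eq ?_)
    show _ = M.g y (B (B (f i))) (f i)
    rw [hB (B (f i))]
  calc (∑ i, M.g y (B (f i)) (f i)) ^ 2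
      ≤ (Finset.univ : Finset (Fin N)).card * ∑ i, M.g y (B (f i)) (f i) ^ 2 :=
        sq_sum_le_card_mul_sum_sq
    _ ≤ N * ∑ i, M.g y ((B.comp B) (f i)) (f i) := by
        rw [Finset.card_univ, Fintype.card_fin]
        exact mul_le_mul_of_nonneg_left (Finset.sum_le_sum fun i _ => h1 i) (by positivity)

/-! ### Derivative of the determinant -/

lemma hasDerivAt_det {n : ℕ} {A : ℝ → Matrix (Fin n) (Fin n) ℝ} {A' : Matrix (Fin n) (Fin n) ℝ} {t : ℝ}
    (h : ∀ i j, HasDerivAt (fun s => A s i j) (A' i j) t) :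
    HasDerivAt (fun s => (A s).det) (Matrix.trace ((A t).adjugate * A')) t := by
  have h1 : HasDerivAt (fun s => ∑ σ : Equiv.Perm (Fin n), ((Equiv.Perm.sign σ : ℤ) : ℝ) *
      ∏ i, A s (σ i) i) (∑ σ : Equiv.Perm (Fin n), ((Equiv.Perm.sign σ : ℤ) : ℝ) *
      ∑ i, (∏ j ∈ Finset.univ.erase i, A t (σ j) j) * A' (σ i) i) t := by
    apply HasDerivAt.fun_sum
    intro σ _
    apply HasDerivAt.const_mul
    have := HasDerivAt.fun_finsetProd (u := Finset.univ) (f := fun i s => A s (σ i) i)
      (f' := fun i => A' (σ i) i) (x := t) (fun i _ => h (σ i) i)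
    simpa [smul_eq_mul] using this
  have e1 : (fun s => (A s).det) = fun s => ∑ σ : Equiv.Perm (Fin n),
      ((Equiv.Perm.sign σ : ℤ) : ℝ) * ∏ i, A s (σ i) i := by
    ext s
    rw [Matrix.det_apply']
  rw [e1]
  convert h1 using 1
  have e2 : Matrix.trace ((A t).adjugate * A') = ∑ i, ((A t).updateCol i (fun j => A' j i)).det := by
    unfold Matrix.trace
    apply Finset.sum_congr rfl
    intro i _
    rw [← Matrix.cramer_apply, Matrix.cramer_eq_adjugate_mulVec]
    rfl
  rw [e2]
  simp only [Matrix.det_apply', Finset.mul_sum]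
  rw [Finset.sum_comm]
  apply Finset.sum_congr rfl; intro σ _
  apply Finset.sum_congr rfl; intro i _
  congr 1
  rw [← Finset.mul_prod_erase Finset.univ _ (Finset.mem_univ i), mul_comm]
  congr 1
  · apply Finset.prod_congr rfl
    intro j hj
    rw [Matrix.updateCol_ne (Finset.ne_of_mem_erase hj)]
  · rw [Matrix.updateCol_self]

/-! ### Along a ray -/

section Ray

variable (x : E N)

/-- `B` along the ray. -/
noncomputable def b (t : ℝ) : E N →L[ℝ] E N := Gc M (t • x) (t • x)

/-- its derivative -/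
noncomputable def b' (t : ℝ) : E N →L[ℝ] E N := DG M (t • x) x (t • x) + Gc M (t • x) x

lemma hasDerivAt_smul (t : ℝ) : HasDerivAt (fun s : ℝ => s • x) x t := by
  simpa using (hasDerivAt_id t).smul_const x

lemma hasDerivAt_b (t : ℝ) : HasDerivAt (b M x) (b' M x t) t := by
  have h0 : HasFDerivAt (Gc M) (DG M (t • x)) ((fun s : ℝ => s • x) t) := hasFDerivAt_Gc M (t • x)
  have h1 := h0.comp_hasDerivAt t (hasDerivAt_smul x t)
  exact h1.clm_apply (hasDerivAt_smul x t)

lemma smul_b' (t : ℝ) (v : E N) : t • b' M x t v = DG M (t • x) (t • x) (t • x) v + b M x t v := by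
  unfold b' b
  simp only [add_apply, smul_add, map_smul, smul_apply]

lemma curv_ray (t : ℝ) (v : E N) : M.curv (t • x) v (t • x) (t • x) =
    -(b M x t v + t • b' M x t v + b M x t (b M x t v)) := by
  rw [curv_radial, smul_b']
  unfold b
  abel_nf

lemma b_self (t : ℝ) : b M x t (t • x) = 0 := Gc_yy M (t • x)

lemma b_zero : b M x 0 = 0 := by
  unfold b
  rw [zero_smul, map_zero]

/-- The Riccati inequality in quadratic form. -/
lemma riccati_form {c₁ : ℝ} (hc : 0 ≤ c₁)
    (hsec : ∀ x u v, LinearIndependent ℝ ![u, v] → -c₁ ≤ M.sec x u v) (t : ℝ) (v : E N) :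
    M.g (t • x) (b M x t v + t • b' M x t v + b M x t (b M x t v)) v ≤
      c₁ * (t ^ 2 * ‖x‖ ^ 2) * M.g (t • x) v v := by
  set y := t • x with hy
  have hyy : M.g y y y = t ^ 2 * ‖x‖ ^ 2 := by
    rw [M.gauss, hy, real_inner_self_eq_norm_sq, norm_smul, mul_pow, Real.norm_eq_abs, sq_abs]
  have hyy0 : 0 ≤ M.g y y y := by rw [hyy]; positivity
  have hvv : 0 ≤ M.g y v v := by
    by_cases h : v = 0
    · rw [h]; simp
    · exact (M.pos y v h).le
  by_cases hli : LinearIndependent ℝ ![v, y]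
  · have h1 := hsec y v y hli
    have hy0 : y ≠ 0 := by
      have := hli.ne_zero 1
      simpa using this
    have hypos := M.pos y y hy0
    have hw : (M.g y y y) • v - (M.g y v y) • y ≠ 0 := by
      intro h
      have h2 := LinearIndependent.pair_iff.1 hli (M.g y y y) (-(M.g y v y)) (by
        rw [neg_smul, ← sub_eq_add_neg]; exact h)
      exact hypos.ne' h2.1
    have h2 := M.pos y _ hw
    simp only [map_sub, map_smul, sub_apply, smul_apply, smul_eq_mul] at h2
    rw [M.symm y y v] at h2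
    have h3 : 0 < M.g y y y * (M.g y v v * M.g y y y - M.g y v y ^ 2) := by nlinarith
    have h4 : 0 < M.g y v v * M.g y y y - M.g y v y ^ 2 := by
      by_contra hcon
      push Not at hcon
      nlinarith
    unfold NormalMetric.sec at h1
    rw [le_div_iff₀ h4, hy, curv_ray, ← hy] at h1
    rw [map_neg, neg_apply] at h1
    rw [← hyy]
    nlinarith [sq_nonneg (M.g y v y), mul_nonneg hc (sq_nonneg (M.g y v y))]
  · -- dependent vectors: the left side vanishes
    have h0 : b M x t v + t • b' M x t v + b M x t (b M x t v) = 0 := by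
      rw [smul_b', ← hy]
      by_cases hy0 : y = 0
      · have hb : b M x t = 0 := by
          unfold b
          rw [← hy, hy0, map_zero]
        rw [hb, hy0]
        simp
      · have : ∃ s : ℝ, v = s • y := by
          rw [LinearIndependent.pair_iff] at hli
          push Not at hli
          obtain ⟨p, q, hpq, hne⟩ := hli
          have hp : p ≠ 0 := by
            intro hp
            rw [hp, zero_smul, zero_add, smul_eq_zero] at hpq
            rcases hpq with h | h
            · exact hne hp h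
            · exact hy0 h
          refine ⟨-(q / p), ?_⟩
          have : v = p⁻¹ • (p • v) := by rw [smul_smul, inv_mul_cancel₀ hp, one_smul]
          rw [this, eq_neg_of_add_eq_zero_left hpq, smul_neg, smul_smul, neg_smul]
          congr 2
          field_simp
        obtain ⟨s, rfl⟩ := this
        have hb : b M x t y = 0 := by rw [hy]; exact b_self M x t
        have hD : DG M y y y y = 0 := by
          rw [DG_yy, Gc_yy, smul_zero]
        simp only [map_smul, hb, hD, smul_zero, add_zero, map_zero]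
    rw [h0]
    simp only [map_zero, zero_apply]
    positivity

/-- The trace of `B` along the ray. -/
noncomputable def τ (t : ℝ) : ℝ := tr (b M x t)

lemma hasDerivAt_τ (t : ℝ) : HasDerivAt (τ M x) (tr (b' M x t)) t := by
  unfold τ tr
  apply HasDerivAt.fun_sum
  intro i _
  have h1 : HasDerivAt (fun s => b M x s (e i)) (b' M x t (e i)) t :=
    ((ContinuousLinearMap.apply ℝ (E N) (e i : E N)).hasFDerivAt).comp_hasDerivAt t (hasDerivAt_b M x t)
  exact ((EuclideanSpace.proj (𝕜 := ℝ) i).hasFDerivAt).comp_hasDerivAt t h1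

lemma riccati {c₁ : ℝ} (hc : 0 ≤ c₁)
    (hsec : ∀ x u v, LinearIndependent ℝ ![u, v] → -c₁ ≤ M.sec x u v) (t : ℝ) :
    N * (τ M x t + t * tr (b' M x t)) + τ M x t ^ 2 ≤ N ^ 2 * (c₁ * (t ^ 2 * ‖x‖ ^ 2)) := by
  have h1 : tr (b M x t + t • b' M x t + (b M x t).comp (b M x t)) ≤ N * (c₁ * (t ^ 2 * ‖x‖ ^ 2)) := by
    apply tr_le M (y := t • x)
    intro v
    exact riccati_form M x hc hsec t v
  have h2 : tr (b M x t + t • b' M x t + (b M x t).comp (b M x t)) =
      τ M x t + t * tr (b' M x t) + tr ((b M x t).comp (b M x t)) := by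
    unfold τ tr
    simp only [add_apply, smul_apply, PiLp.add_apply, PiLp.smul_apply, smul_eq_mul,
      Finset.sum_add_distrib, Finset.mul_sum]
  have h3 : τ M x t ^ 2 ≤ N * tr ((b M x t).comp (b M x t)) := by
    apply tr_sq M (y := t • x)
    intro v w
    exact B_symm M (t • x) v w
  rw [h2] at h1
  have h4 := mul_le_mul_of_nonneg_left h1 (Nat.cast_nonneg (α := ℝ) N)
  nlinarith

/-- Comparison for the Riccati inequality. -/
lemma τ_le {c₁ : ℝ} (hc : 0 ≤ c₁)
    (hsec : ∀ x u v, LinearIndependent ℝ ![u, v] → -c₁ ≤ M.sec x u v) :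
    τ M x 1 ≤ N * √c₁ * ‖x‖ := by
  apply le_of_forall_pos_le_add
  intro δ hδ
  set s : ℝ := √c₁ * ‖x‖ with hs
  have hs0 : 0 ≤ s := by positivity
  have hs2 : s ^ 2 = c₁ * ‖x‖ ^ 2 := by
    rw [hs, mul_pow, Real.sq_sqrt hc]
  have h := image_le_of_deriv_right_lt_deriv_boundary (f := τ M x) (f' := fun t => tr (b' M x t))
    (a := 0) (b := 1) (B := fun t => N * s * t + δ) (B' := fun _ => N * s)
    (fun t _ => (hasDerivAt_τ M x t).continuousAt.continuousWithinAt)
    (fun t _ => (hasDerivAt_τ M x t).hasDerivWithinAt) (by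
      have : τ M x 0 = 0 := by
        unfold τ tr
        rw [b_zero]
        simp
      rw [this]
      simp [hδ.le])
    (fun t => by simpa using ((hasDerivAt_id t).const_mul ((N : ℝ) * s)).add_const δ)
    (fun t ht hcontact => by
      have hr := riccati M x hc hsec t
      have ht0 : 0 < t := by
        rcases ht.1.lt_or_eq with h | h
        · exact h
        · exfalso
          rw [← h] at hcontact
          have : τ M x 0 = 0 := by
            unfold τ tr
            rw [b_zero]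
            simp
          rw [this] at hcontact
          simp at hcontact
          exact hδ.ne hcontact
      have hN0 : (0 : ℝ) ≤ N := Nat.cast_nonneg N
      have hNst : 0 ≤ N * s * t := by positivity
      have e1 : (N : ℝ) ^ 2 * (c₁ * (t ^ 2 * ‖x‖ ^ 2)) = (N * s * t) ^ 2 := by
        rw [mul_pow, mul_pow, hs2]
        ring
      rw [e1, hcontact] at hr
      have hτ : 0 < N * s * t + δ := by positivity
      have h2 : (N : ℝ) * (N * s * t + δ + t * tr (b' M x t)) < 0 := by nlinarith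
      have hNpos : (0 : ℝ) < N := by
        rcases hN0.lt_or_eq with h | h
        · exact h
        · rw [← h] at h2; simp at h2
      have h3 : N * s * t + δ + t * tr (b' M x t) < 0 := by
        by_contra hcon
        push Not at hcon
        have := mul_nonneg hN0 hcon
        linarith
      have h4 : t * tr (b' M x t) < 0 := by linarith
      have h5 : tr (b' M x t) < 0 := by
        by_contra hcon
        push Not at hcon
        have := mul_nonneg ht0.le hcon
        linarith
      have : 0 ≤ N * s := by positivity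
      linarith) (show (1 : ℝ) ∈ Icc (0 : ℝ) 1 by simp)
  simp only [mul_one] at h
  rw [hs] at h
  linarith

/-- Derivative of the determinant along the ray. -/
lemma hasDerivAt_detG (t : ℝ) : ∃ D' : ℝ, HasDerivAt (fun s : ℝ => (Gm M (s • x)).det) D' t ∧
    t * D' = 2 * τ M x t * (Gm M (t • x)).det := by
  set A' : Matrix (Fin N) (Fin N) ℝ := Matrix.of fun i j => Dg M (t • x) x (e i) (e j) with hA'
  have h1 : ∀ i j, HasDerivAt (fun s : ℝ => Gm M (s • x) i j) (A' i j) t := by
    intro i j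
    have h0 : HasFDerivAt M.g (Dg M (t • x)) ((fun s : ℝ => s • x) t) := hasFDerivAt_g M (t • x)
    have h2 : HasDerivAt (fun s : ℝ => M.g (s • x)) (Dg M (t • x) x) t :=
      h0.comp_hasDerivAt t (hasDerivAt_smul x t)
    exact ((((ContinuousLinearMap.apply ℝ ℝ (e j : E N)).comp
      (ContinuousLinearMap.apply ℝ (E N →L[ℝ] ℝ) (e i : E N))).hasFDerivAt).comp_hasDerivAt t h2)
  refine ⟨_, hasDerivAt_det (A := fun s : ℝ => Gm M (s • x)) h1, ?_⟩
  set bm : Matrix (Fin N) (Fin N) ℝ := Matrix.of fun k i => (b M x t (e i)) k with hbm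
  have h2 : t • A' = (2 : ℝ) • (bm.transpose * Gm M (t • x)) := by
    ext i j
    simp only [hA', Matrix.smul_apply, Matrix.of_apply, smul_eq_mul, Matrix.mul_apply,
      Matrix.transpose_apply, hbm]
    have e1 : t * Dg M (t • x) x (e i) (e j) = Dg M (t • x) (t • x) (e i) (e j) := by
      rw [map_smul]
      rfl
    have e2 : Dg M (t • x) (t • x) (e i) (e j) = 2 * M.g (t • x) (b M x t (e i)) (e j) := by
      have := g_B M (t • x) (e i) (e j)
      unfold b
      linarith
    rw [e1, e2]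
    congr 1
    conv_lhs => rw [e_decomp (b M x t (e i))]
    simp only [map_sum, map_smul, sum_apply, smul_apply, smul_eq_mul]
    rfl
  have h3 : t * Matrix.trace ((Gm M (t • x)).adjugate * A') =
      Matrix.trace ((Gm M (t • x)).adjugate * (t • A')) := by
    rw [Matrix.mul_smul, Matrix.trace_smul, smul_eq_mul]
  rw [h3, h2, Matrix.mul_smul, Matrix.trace_smul, ← Matrix.mul_assoc, Matrix.trace_mul_comm,
    ← Matrix.mul_assoc, Matrix.mul_adjugate, Matrix.smul_mul, Matrix.one_mul, Matrix.trace_smul,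
    Matrix.trace_transpose]
  have h4 : bm.trace = τ M x t := rfl
  rw [h4]
  simp only [smul_eq_mul]
  ring

lemma hasDerivAt_dens (t : ℝ) : ∃ w' : ℝ, HasDerivAt (fun s : ℝ => M.dens (s • x)) w' t ∧
    t * w' = τ M x t * M.dens (t • x) := by
  obtain ⟨D', h1, h2⟩ := hasDerivAt_detG M x t
  have hp := det_pos M (t • x)
  refine ⟨_, h1.sqrt hp.ne', ?_⟩
  have h3 : M.dens (t • x) = √(Gm M (t • x)).det := rfl
  rw [h3]
  have h4 : 0 < √(Gm M (t • x)).det := Real.sqrt_pos.2 hp
  have h5 : t * (D' / (2 * √(Gm M (t • x)).det)) = (t * D') / (2 * √(Gm M (t • x)).det) := by ring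
  rw [h5, h2, div_eq_iff (by positivity)]
  have h6 := Real.mul_self_sqrt hp.le
  linear_combination (-2 * τ M x t) * h6

end Ray

/-- `x · ∇w` in terms of the trace. -/
lemma fderiv_dens (x : E N) : fderiv ℝ M.dens x x = τ M x 1 * M.dens x := by
  obtain ⟨w', h1, h2⟩ := hasDerivAt_dens M x 1
  have h3 : HasFDerivAt M.dens (fderiv ℝ M.dens ((fun s : ℝ => s • x) 1)) ((fun s : ℝ => s • x) 1) :=
    ((smooth_dens M).differentiable (by simp)).differentiableAt.hasFDerivAt
  have h4 := h3.comp_hasDerivAt (1 : ℝ) (hasDerivAt_smul x 1)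
  have h5 := h1.unique h4
  simp only [one_smul, one_mul] at h2 h5
  rw [← h5, h2]

/-! ### The function `√(1 + |x|²)` -/

noncomputable def rho (y : E N) : ℝ := √(1 + ‖y‖ ^ 2)

lemma rho_pos (y : E N) : 0 < rho y := Real.sqrt_pos.2 (by positivity)

lemma rho_sq (y : E N) : rho y ^ 2 = 1 + ‖y‖ ^ 2 := Real.sq_sqrt (by positivity)

lemma one_le_rho (y : E N) : 1 ≤ rho y := by
  have := rho_sq y
  have := rho_pos y
  nlinarith [sq_nonneg ‖y‖]

lemma norm_le_rho (y : E N) : ‖y‖ ≤ rho y := by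
  apply Real.le_sqrt_of_sq_le
  linarith

lemma hasFDerivAt_rho (y : E N) : HasFDerivAt rho ((rho y)⁻¹ • innerSL ℝ y) y := by
  have h1 : HasFDerivAt (fun y : E N => ‖y‖ ^ 2) (2 • innerSL ℝ y) y :=
    (hasStrictFDerivAt_norm_sq y).hasFDerivAt
  have h2 := (h1.const_add 1).sqrt (show (1 : ℝ) + ‖y‖ ^ 2 ≠ 0 by positivity)
  have h3 : (rho y)⁻¹ • innerSL ℝ y = (1 / (2 * √(1 + ‖y‖ ^ 2))) • (2 • innerSL ℝ y) := by
    rw [← Nat.cast_smul_eq_nsmul ℝ, smul_smul]
    congr 1
    have : √(1 + ‖y‖ ^ 2) ≠ 0 := (rho_pos y).ne'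
    unfold rho
    field_simp
    norm_num
  rw [h3]
  exact h2

lemma clm_decomp (T : E N →L[ℝ] ℝ) (v : E N) : T v = ∑ i, v i * T (e i) := by
  conv_lhs => rw [e_decomp v]
  simp [map_sum]

lemma gradient_rho (y : E N) : gradient (rho : E N → ℝ) y = (rho y)⁻¹ • y := by
  unfold gradient
  rw [(hasFDerivAt_rho y).fderiv, map_smul]
  congr 1
  exact (InnerProductSpace.toDual ℝ (E N)).symm_apply_apply y

lemma inverse_inner (y : E N) : (M.g y).inverse (innerSL ℝ y) = y := by
  have : M.g y y = innerSL ℝ y := by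
    ext v
    rw [M.gauss]
    rfl
  rw [← this, inverse_g]

end Geo

open Geo

theorem stmt_G2 : Stmt_G2 := by
  intro N M c hc c₁ hc₁ hsec
  have hrho : (fun y : E N => √(1 + ‖y‖ ^ 2)) = rho := rfl
  have hA : ∀ y, c.A y (gradient (rho : E N → ℝ) y) = (M.dens y * (rho y)⁻¹) • y := by
    intro y
    rw [hc.2, gradient_rho, map_smul, map_smul, inverse_inner, smul_smul]
  rw [hrho]
  constructor
  · intro x
    have hw : DifferentiableAt ℝ M.dens x := ((smooth_dens M).differentiable (by simp)).differentiableAt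
    have hr : HasFDerivAt (fun y : E N => (rho y)⁻¹) (-(rho x ^ 2)⁻¹ • ((rho x)⁻¹ • innerSL ℝ x)) x := by
      have := (hasDerivAt_inv (rho_pos x).ne').comp_hasFDerivAt x (hasFDerivAt_rho x)
      exact this
    set q : E N → ℝ := fun y => M.dens y * (rho y)⁻¹ with hq
    have hqd : HasFDerivAt q (M.dens x • (-(rho x ^ 2)⁻¹ • ((rho x)⁻¹ • innerSL ℝ x)) +
        (rho x)⁻¹ • fderiv ℝ M.dens x) x := hw.hasFDerivAt.mul hr
    have hL : c.L rho x = N * q x + fderiv ℝ q x x := by
      unfold Coef.L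
      simp only [hA]
      have h1 : ∀ i : Fin N, fderiv ℝ (fun y : E N => ((M.dens y * (rho y)⁻¹) • y) i) x (e i) =
          q x + x i * fderiv ℝ q x (e i) := by
        intro i
        have h2 : HasFDerivAt (fun y : E N => y i) (EuclideanSpace.proj (𝕜 := ℝ) i : E N →L[ℝ] ℝ) x :=
          (EuclideanSpace.proj (𝕜 := ℝ) i : E N →L[ℝ] ℝ).hasFDerivAt
        have h3 := (hqd.differentiableAt.hasFDerivAt.mul h2).fderiv
        have h4 : (fun y : E N => ((M.dens y * (rho y)⁻¹) • y) i) = fun y => q y * y i := rfl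
        rw [h4]
        have h5 : fderiv ℝ (fun y => q y * y i) x = q x • (EuclideanSpace.proj (𝕜 := ℝ) i : E N →L[ℝ] ℝ) +
          x i • fderiv ℝ q x := h3
        rw [h5]
        simp [e]
      simp only [h1, Finset.sum_add_distrib]
      congr 1
      · simp
      · rw [clm_decomp (fderiv ℝ q x) x]
    rw [hL, hqd.fderiv, hc.1]
    simp only [add_apply, smul_apply, smul_eq_mul, innerSL_apply_apply]
    rw [real_inner_self_eq_norm_sq, fderiv_dens]
    have hτ := τ_le M x hc₁ hsec
    have hd := dens_pos M x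
    have hr1 := one_le_rho x
    have hr0 := rho_pos x
    have hrx := norm_le_rho x
    have k1 : (rho x)⁻¹ ≤ 1 := inv_le_one_of_one_le₀ hr1
    have k2 : τ M x 1 * (rho x)⁻¹ ≤ N * √c₁ := by
      rw [← div_eq_mul_inv, div_le_iff₀ hr0]
      calc τ M x 1 ≤ N * √c₁ * ‖x‖ := hτ
        _ ≤ N * √c₁ * rho x := by gcongr
    have k3 : 0 ≤ M.dens x * ((rho x ^ 2)⁻¹ * ((rho x)⁻¹ * ‖x‖ ^ 2)) := by positivity
    have k4 : (N : ℝ) * (M.dens x * (rho x)⁻¹) ≤ N * M.dens x := by
      gcongr
      exact mul_le_of_le_one_right hd.le k1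
    have k5 : M.dens x * (τ M x 1 * (rho x)⁻¹) ≤ M.dens x * (N * √c₁) :=
      mul_le_mul_of_nonneg_left k2 hd.le
    simp only [hq]
    nlinarith
  · intro x
    rw [hA, gradient_rho, real_inner_smul_left, real_inner_smul_right, real_inner_self_eq_norm_sq,
      hc.1]
    have h1 : ‖x‖ ^ 2 / (1 + ‖x‖ ^ 2) = (rho x)⁻¹ * ((rho x)⁻¹ * ‖x‖ ^ 2) := by
      rw [← rho_sq]
      have := (rho_pos x).ne'
      field_simp
    rw [h1]
    ring

end Pool.Agent.MP909527
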