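import Pool.Agent.Work.MP_909527_an.Interface

/-!
# MP_909527_an, block M: smoothing and the commutator estimate
-/

set_option autoImplicit false

open MeasureTheory Set Filter Topology
open scoped ContDiff InnerProductSpace

namespace Pool.Agent.MP909527

namespace Moll

variable {N : ℕ}

/-- Partial derivative. -/
noncomputable def pdv (i : Fin N) (f : E N → ℝ) (x : E N) : ℝ := fderiv ℝ f x (e i)

/-- Convolution `∫ g(t) ρ(x - t) dt`. -/
noncomputable def cv (g ρ : E N → ℝ) (x : E N) : ℝ := ∫ t, g t * ρ (x - t)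

lemma cv_eq (g ρ : E N → ℝ) (x : E N) :
    cv g ρ x = convolution g ρ (ContinuousLinearMap.mul ℝ ℝ) volume x := rfl

lemma contDiff_pdv (i : Fin N) {f : E N → ℝ} (hf : ContDiff ℝ ∞ f) : ContDiff ℝ ∞ (pdv i f) := by
  unfold pdv
  exact (hf.fderiv_right (m := ∞) (by simp)).clm_apply contDiff_const

lemma pdv_cs (i : Fin N) {f : E N → ℝ} (hf : HasCompactSupport f) : HasCompactSupport (pdv i f) := by
  unfold pdv
  exact hf.fderiv_apply (𝕜 := ℝ) (e i)

lemma contDiff_cv {g ρ : E N → ℝ} (hg : Continuous g) (hρ : ContDiff ℝ ∞ ρ)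
    (hρc : HasCompactSupport ρ) : ContDiff ℝ ∞ (cv g ρ) :=
  hρc.contDiff_convolution_right (ContinuousLinearMap.mul ℝ ℝ) hg.locallyIntegrable hρ

lemma pdv_cv (i : Fin N) {g ρ : E N → ℝ} (hg : Continuous g) (hρ : ContDiff ℝ ∞ ρ)
    (hρc : HasCompactSupport ρ) : pdv i (cv g ρ) = cv g (pdv i ρ) := by
  ext x
  have h := (hρc.hasFDerivAt_convolution_right (ContinuousLinearMap.mul ℝ ℝ)
    (μ := (volume : Measure (E N))) hg.locallyIntegrable (hρ.of_le (by simp)) x)
  have h2 : fderiv ℝ (cv g ρ) x = _ := h.fderiv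
  unfold pdv
  rw [h2, convolution_precompR_apply _ hg.locallyIntegrable (hρc.fderiv (𝕜 := ℝ))
    (hρ.continuous_fderiv (by simp))]
  rfl

lemma integrable_cv {g ρ : E N → ℝ} (hg : Continuous g) (hρ : Continuous ρ)
    (hρc : HasCompactSupport ρ) (x : E N) : Integrable (fun t => g t * ρ (x - t)) :=
  hρc.convolutionExists_right (ContinuousLinearMap.mul ℝ ℝ) hg.locallyIntegrable hρ x

/-- matrix entries -/
noncomputable def a (c : Coef N) (i j : Fin N) (y : E N) : ℝ := (c.A y (e j)) i

lemma inner_e (v : E N) (i : Fin N) : ⟪e i, v⟫_ℝ = v i := by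
  simp [e, EuclideanSpace.inner_single_left]

lemma a_symm (c : Coef N) (i j : Fin N) (y : E N) : a c i j y = a c j i y := by
  unfold a
  rw [← inner_e, ← inner_e, ← c.symm, real_inner_comm]

lemma smooth_a (c : Coef N) (i j : Fin N) : ContDiff ℝ ∞ (a c i j) := by
  have h1 : ContDiff ℝ ∞ (fun y => c.A y (e j)) := c.smoothA.clm_apply contDiff_const
  exact (contDiff_euclidean.1 h1) i

lemma e_decomp (v : E N) : v = ∑ j, v j • (e j : E N) := by
  ext i
  simp [e, Finset.sum_apply, Pi.single_apply]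

lemma A_apply (c : Coef N) (y v : E N) (i : Fin N) : (c.A y v) i = ∑ j, v j * a c i j y := by
  conv_lhs => rw [e_decomp v]
  simp [a, map_sum]

lemma gradient_apply (f : E N → ℝ) (x : E N) (j : Fin N) : (gradient f x) j = pdv j f x := by
  rw [← inner_e, real_inner_comm]
  unfold gradient pdv
  rw [InnerProductSpace.toDual_symm_apply]

/-- `∑ᵢ ∂ᵢ a_{ij}`. -/
noncomputable def d (c : Coef N) (j : Fin N) (y : E N) : ℝ := ∑ i, pdv i (a c i j) y

lemma continuous_a (c : Coef N) (i j : Fin N) : Continuous (a c i j) := (smooth_a c i j).continuous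

lemma continuous_d (c : Coef N) (j : Fin N) : Continuous (d c j) := by
  unfold d
  exact continuous_finsetSum _ fun i _ => (contDiff_pdv i (smooth_a c i j)).continuous

/-- The flux field. -/
noncomputable def W (c : Coef N) (U ρ : E N → ℝ) (i : Fin N) (x : E N) : ℝ :=
  (∑ j, cv (fun y => U y * a c i j y) (pdv j ρ) x) - cv (fun y => U y * d c i y) ρ x

section Key

variable (c : Coef N) {U h ρ : E N → ℝ} (hU : Continuous U) (hρ : ContDiff ℝ ∞ ρ)
  (hρc : HasCompactSupport ρ)

include hU hρ hρc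

lemma contDiff_W (i : Fin N) : ContDiff ℝ ∞ (W c U ρ i) := by
  unfold W
  apply ContDiff.sub
  · apply ContDiff.sum
    intro j _
    exact contDiff_cv (hU.mul (continuous_a c i j)) (contDiff_pdv j hρ) (pdv_cs j hρc)
  · exact contDiff_cv (hU.mul (continuous_d c i)) hρ hρc

lemma pdv_W (i : Fin N) (x : E N) : pdv i (W c U ρ i) x =
    (∑ j, cv (fun y => U y * a c i j y) (pdv i (pdv j ρ)) x) - cv (fun y => U y * d c i y) (pdv i ρ) x := by
  have h1 : ∀ j, DifferentiableAt ℝ (cv (fun y => U y * a c i j y) (pdv j ρ)) x := fun j =>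
    (contDiff_cv (hU.mul (continuous_a c i j)) (contDiff_pdv j hρ) (pdv_cs j hρc)).differentiable
      (by simp) |>.differentiableAt
  have h2 : DifferentiableAt ℝ (cv (fun y => U y * d c i y) ρ) x :=
    (contDiff_cv (hU.mul (continuous_d c i)) hρ hρc).differentiable (by simp) |>.differentiableAt
  have e1 : pdv i (W c U ρ i) x = (∑ j, pdv i (cv (fun y => U y * a c i j y) (pdv j ρ)) x)
      - pdv i (cv (fun y => U y * d c i y) ρ) x := by
    show fderiv ℝ (fun x => (∑ j, cv (fun y => U y * a c i j y) (pdv j ρ) x) -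
      cv (fun y => U y * d c i y) ρ x) x (e i) = _
    rw [fderiv_fun_sub (DifferentiableAt.fun_sum fun j _ => h1 j) h2,
      fderiv_fun_sum fun j _ => h1 j]
    simp only [sub_apply, sum_apply]
    rfl
  rw [e1, pdv_cv i (g := fun y => U y * d c i y) (hU.mul (continuous_d c i)) hρ hρc]
  congr 1
  apply Finset.sum_congr rfl
  intro j _
  rw [pdv_cv i (g := fun y => U y * a c i j y) (hU.mul (continuous_a c i j)) (contDiff_pdv j hρ)
    (pdv_cs j hρc)]

omit hU hρc in
lemma pdv_reflect (j : Fin N) (x y : E N) : pdv j (fun y => ρ (x - y)) y = - pdv j ρ (x - y) := by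
  have h1 : HasFDerivAt ρ (fderiv ℝ ρ (x - y)) (x - y) :=
    (hρ.differentiable (by simp)).differentiableAt.hasFDerivAt
  have h2 : HasFDerivAt (fun y : E N => x - y) (-(ContinuousLinearMap.id ℝ (E N))) y := by
    simpa using (hasFDerivAt_id y).const_sub x
  have := (h1.comp y h2).fderiv
  unfold pdv
  have e : fderiv ℝ (fun y => ρ (x - y)) y = (fderiv ℝ ρ (x - y)).comp (-(ContinuousLinearMap.id ℝ (E N))) :=
    this
  rw [e]
  simp

omit hU hρc in
lemma L_reflect (x y : E N) : c.L (fun y => ρ (x - y)) y =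
    (∑ i, ∑ j, a c i j y * pdv i (pdv j ρ) (x - y)) - ∑ i, d c i y * pdv i ρ (x - y) := by
  have hg : ∀ y i, (c.A y (gradient (fun y => ρ (x - y)) y)) i =
      ∑ j, (-pdv j ρ (x - y)) * a c i j y := by
    intro y i
    rw [A_apply]
    apply Finset.sum_congr rfl
    intro j _
    rw [gradient_apply, pdv_reflect hρ]
  have hd : ∀ j, Differentiable ℝ (fun y => pdv j ρ (x - y)) := fun j =>
    ((contDiff_pdv j hρ).comp (contDiff_const.sub contDiff_id)).differentiable (by simp)
  have ha : ∀ i j, Differentiable ℝ (a c i j) := fun i j => (smooth_a c i j).differentiable (by simp)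
  have e1 : ∀ i, fderiv ℝ (fun y => (c.A y (gradient (fun y => ρ (x - y)) y)) i) y (e i) =
      ∑ j, (a c i j y * pdv i (pdv j ρ) (x - y) - pdv j ρ (x - y) * pdv i (a c i j) y) := by
    intro i
    simp only [hg]
    have hn : ∀ j, DifferentiableAt ℝ (fun y => -pdv j ρ (x - y)) y := fun j =>
      (hd j).neg.differentiableAt
    rw [fderiv_fun_sum (A := fun j y => -pdv j ρ (x - y) * a c i j y)
      fun j _ => (hn j).fun_mul (ha i j).differentiableAt]
    rw [sum_apply]
    apply Finset.sum_congr rfl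
    intro j _
    rw [fderiv_fun_mul (hn j) (ha i j).differentiableAt]
    have e2 : fderiv ℝ (fun y => pdv j ρ (x - y)) y (e i) = - pdv i (pdv j ρ) (x - y) :=
      pdv_reflect (contDiff_pdv j hρ) i x y
    rw [fderiv_fun_neg]
    simp only [add_apply, smul_apply, neg_apply, smul_eq_mul, e2]
    unfold pdv
    ring
  unfold Coef.L
  simp only [e1, Finset.sum_sub_distrib]
  congr 1
  rw [Finset.sum_comm]
  apply Finset.sum_congr rfl
  intro j _
  unfold d
  rw [Finset.sum_mul]
  apply Finset.sum_congr rfl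
  intro i _
  ring

lemma div_W (hw : ∀ φ : E N → ℝ, ContDiff ℝ ∞ φ → HasCompactSupport φ →
      ∫ x, U x * c.L φ x = ∫ x, h x * φ x) (x : E N) :
    ∑ i, pdv i (W c U ρ i) x = cv h ρ x := by
  have e1 := hw (fun y => ρ (x - y)) (hρ.comp (contDiff_const.sub contDiff_id))
    (hρc.comp_homeomorph (Homeomorph.subLeft x))
  unfold cv
  rw [← e1]
  simp only [pdv_W c hU hρ hρc, Finset.sum_sub_distrib]
  have i1 : ∀ i j, Integrable (fun t => (U t * a c i j t) * pdv i (pdv j ρ) (x - t)) := fun i j =>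
    integrable_cv (hU.mul (continuous_a c i j)) (contDiff_pdv i (contDiff_pdv j hρ)).continuous
      (pdv_cs i (pdv_cs j hρc)) x
  have i2 : ∀ i, Integrable (fun t => (U t * d c i t) * pdv i ρ (x - t)) := fun i =>
    integrable_cv (hU.mul (continuous_d c i)) (contDiff_pdv i hρ).continuous (pdv_cs i hρc) x
  unfold cv
  rw [Finset.sum_congr rfl fun i _ => (integral_finsetSum _ fun j _ => i1 i j).symm,
    ← integral_finsetSum _ fun i _ => integrable_finsetSum _ fun j _ => i1 i j,
    ← integral_finsetSum _ fun i _ => i2 i,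
    ← integral_sub (integrable_finsetSum _ fun i _ => integrable_finsetSum _ fun j _ => i1 i j)
      (integrable_finsetSum _ fun i _ => i2 i)]
  congr 1
  ext t
  rw [L_reflect c hρ, mul_sub, Finset.mul_sum, Finset.mul_sum]
  congr 1
  · apply Finset.sum_congr rfl; intro i _
    rw [Finset.mul_sum]
    apply Finset.sum_congr rfl; intro j _
    ring
  · apply Finset.sum_congr rfl; intro i _
    ring

/-- integration by parts against the flux -/
lemma ibp_W (hw : ∀ φ : E N → ℝ, ContDiff ℝ ∞ φ → HasCompactSupport φ →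
      ∫ x, U x * c.L φ x = ∫ x, h x * φ x) {ψ : E N → ℝ} (hψ : ContDiff ℝ 1 ψ)
      (hψc : HasCompactSupport ψ) :
    ∫ x, ∑ i, W c U ρ i x * pdv i ψ x = - ∫ x, cv h ρ x * ψ x := by
  have c1 : ∀ i, Continuous (W c U ρ i) := fun i => (contDiff_W c hU hρ hρc i).continuous
  have c2 : ∀ i, Continuous (pdv i (W c U ρ i)) := fun i =>
    (contDiff_pdv i (contDiff_W c hU hρ hρc i)).continuous
  have c3 : ∀ i, Continuous (pdv i ψ) := fun i => by
    unfold pdv
    exact (hψ.continuous_fderiv (by simp)).clm_apply continuous_const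
  have j1 : ∀ i, Integrable (fun x => W c U ρ i x * pdv i ψ x) := fun i =>
    ((c1 i).mul (c3 i)).integrable_of_hasCompactSupport (pdv_cs i hψc).mul_left
  have j2 : ∀ i, Integrable (fun x => pdv i (W c U ρ i) x * ψ x) := fun i =>
    ((c2 i).mul hψ.continuous).integrable_of_hasCompactSupport hψc.mul_left
  have j3 : ∀ i, Integrable (fun x => W c U ρ i x * ψ x) := fun i =>
    ((c1 i).mul hψ.continuous).integrable_of_hasCompactSupport hψc.mul_left
  rw [integral_finsetSum _ fun i _ => j1 i]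
  have e1 : ∀ i, ∫ x, W c U ρ i x * pdv i ψ x = - ∫ x, pdv i (W c U ρ i) x * ψ x := by
    intro i
    apply integral_mul_fderiv_eq_neg_fderiv_mul_of_integrable (j2 i) (j1 i) (j3 i)
    · intro x _
      exact (contDiff_W c hU hρ hρc i).differentiable (by simp) |>.differentiableAt
    · intro x _
      exact hψ.differentiable (by simp) |>.differentiableAt
  simp only [e1, Finset.sum_neg_distrib]
  rw [← integral_finsetSum _ fun i _ => j2 i]
  congr 2
  ext x
  rw [← Finset.sum_mul, div_W c hU hρ hρc hw]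

/-- The commutator field. -/
noncomputable def Cf (i : Fin N) (x : E N) : ℝ :=
  (c.A x (gradient (cv U ρ) x)) i - W c U ρ i x

end Key

section Comm

variable (c : Coef N) {U ρ : E N → ℝ}

/-- the commutator kernel -/
noncomputable def kn (ρ : E N → ℝ) (i : Fin N) (x t : E N) : ℝ :=
  (∑ j, (a c i j x - a c i j t) * pdv j ρ (x - t)) + d c i t * ρ (x - t)

lemma int_aux {g f : E N → ℝ} (hg : Continuous g) (hf : Continuous f) (hfc : HasCompactSupport f)
    (x : E N) : Integrable (fun t => g t * f (x - t)) := integrable_cv hg hf hfc x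

lemma kn_integral_zero (hρ : ContDiff ℝ ∞ ρ) (hρc : HasCompactSupport ρ) (i : Fin N) (x : E N) :
    ∫ t, kn c ρ i x t = 0 := by
  have hr : ContDiff ℝ ∞ (fun t => ρ (x - t)) := hρ.comp (contDiff_const.sub contDiff_id)
  have hrc : HasCompactSupport (fun t => ρ (x - t)) := hρc.comp_homeomorph (Homeomorph.subLeft x)
  have c0 : ∀ j, Continuous (fun t => a c i j x - a c i j t) := fun j =>
    continuous_const.sub (continuous_a c i j)
  have c1 : ∀ j, Continuous (pdv j (a c i j)) := fun j => (contDiff_pdv j (smooth_a c i j)).continuous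
  have e1 : ∀ j, ∫ t, (a c i j x - a c i j t) * pdv j ρ (x - t) = - ∫ t, pdv j (a c i j) t * ρ (x - t) := by
    intro j
    have hd : ∀ t, fderiv ℝ (fun t => a c i j x - a c i j t) t (e j) = - pdv j (a c i j) t := by
      intro t
      rw [fderiv_const_sub]
      rfl
    have hp : ∀ t, fderiv ℝ (fun t => ρ (x - t)) t (e j) = - pdv j ρ (x - t) := fun t =>
      pdv_reflect hρ j x t
    have := integral_mul_fderiv_eq_neg_fderiv_mul_of_integrable (μ := (volume : Measure (E N)))
      (f := fun t => a c i j x - a c i j t) (g := fun t => ρ (x - t)) (v := e j)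
      (by
        simp only [hd]
        exact int_aux (c1 j).neg hρ.continuous hρc x)
      (by
        simp only [hp]
        have := int_aux (c0 j) (contDiff_pdv j hρ).continuous (pdv_cs j hρc) x
        simpa using this.neg)
      (int_aux (c0 j) hρ.continuous hρc x)
      (fun t _ => ((smooth_a c i j).differentiable (by simp)).differentiableAt.const_sub _)
      (fun t _ => hr.differentiable (by simp) |>.differentiableAt)
    simp only [hd, hp, mul_neg, neg_mul, integral_neg, neg_neg] at this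
    linarith
  have i1 : ∀ j, Integrable (fun t => (a c i j x - a c i j t) * pdv j ρ (x - t)) := fun j =>
    int_aux (c0 j) (contDiff_pdv j hρ).continuous (pdv_cs j hρc) x
  have i2 : ∀ j, Integrable (fun t => pdv j (a c i j) t * ρ (x - t)) := fun j =>
    int_aux (c1 j) hρ.continuous hρc x
  unfold kn
  rw [integral_add (integrable_finsetSum _ fun j _ => i1 j)
    (int_aux (continuous_d c i) hρ.continuous hρc x), integral_finsetSum _ fun j _ => i1 j]
  simp only [e1, Finset.sum_neg_distrib]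
  rw [← integral_finsetSum _ fun j _ => i2 j, neg_add_eq_zero]
  congr 1
  ext t
  rw [← Finset.sum_mul]
  congr 1
  unfold d
  apply Finset.sum_congr rfl
  intro j _
  congr 1
  ext y
  exact a_symm c i j y

lemma Cf_eq (hU : Continuous U) (hρ : ContDiff ℝ ∞ ρ) (hρc : HasCompactSupport ρ) (i : Fin N)
    (x : E N) : Cf c (U := U) (ρ := ρ) i x = ∫ t, (U t - U x) * kn c ρ i x t := by
  have p1 : ∀ j, Integrable (fun t => U t * pdv j ρ (x - t)) := fun j =>
    int_aux hU (contDiff_pdv j hρ).continuous (pdv_cs j hρc) x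
  have p2 : ∀ j, Integrable (fun t => (U t * a c i j t) * pdv j ρ (x - t)) := fun j =>
    int_aux (hU.mul (continuous_a c i j)) (contDiff_pdv j hρ).continuous (pdv_cs j hρc) x
  have p3 : Integrable (fun t => (U t * d c i t) * ρ (x - t)) :=
    int_aux (hU.mul (continuous_d c i)) hρ.continuous hρc x
  have e1 : Cf c (U := U) (ρ := ρ) i x = ∫ t, U t * kn c ρ i x t := by
    unfold Cf W
    rw [A_apply]
    simp only [gradient_apply, pdv_cv _ hU hρ hρc]
    have e2 : ∀ j, cv U (pdv j ρ) x * a c i j x = ∫ t, (U t * pdv j ρ (x - t)) * a c i j x := by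
      intro j
      rw [integral_mul_const]
      rfl
    simp only [e2]
    unfold cv
    have q1 : Integrable (fun t => ∑ j, (U t * pdv j ρ (x - t)) * a c i j x) :=
      integrable_finsetSum _ fun j _ => (p1 j).mul_const _
    have q2 : Integrable (fun t => ∑ j, (U t * a c i j t) * pdv j ρ (x - t)) :=
      integrable_finsetSum _ fun j _ => p2 j
    have q3 : Integrable (fun t => ∑ j, (U t * a c i j t) * pdv j ρ (x - t) -
      (U t * d c i t) * ρ (x - t)) := q2.sub p3
    rw [← integral_finsetSum _ fun j _ => (p1 j).mul_const _, ← integral_finsetSum _ fun j _ => p2 j,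
      ← integral_sub q2 p3, ← integral_sub q1 q3]
    congr 1
    ext t
    unfold kn
    rw [mul_add, Finset.mul_sum]
    have : ∑ j, U t * ((a c i j x - a c i j t) * pdv j ρ (x - t)) =
        ∑ j, (U t * pdv j ρ (x - t)) * a c i j x - ∑ j, U t * a c i j t * pdv j ρ (x - t) := by
      rw [← Finset.sum_sub_distrib]
      apply Finset.sum_congr rfl
      intro j _
      ring
    rw [this]
    ring
  have kint : Integrable (fun t => kn c ρ i x t) := by
    unfold kn
    exact (integrable_finsetSum _ fun j _ => int_aux (continuous_const.sub (continuous_a c i j))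
      (contDiff_pdv j hρ).continuous (pdv_cs j hρc) x).add
      (int_aux (continuous_d c i) hρ.continuous hρc x)
  have kUint : Integrable (fun t => U t * kn c ρ i x t) := by
    unfold kn
    have : (fun t => U t * ((∑ j, (a c i j x - a c i j t) * pdv j ρ (x - t)) + d c i t * ρ (x - t))) =
        fun t => (∑ j, (U t * (a c i j x - a c i j t)) * pdv j ρ (x - t)) + (U t * d c i t) * ρ (x - t) := by
      ext t
      rw [mul_add, Finset.mul_sum]
      congr 1
      · apply Finset.sum_congr rfl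
        intro j _
        ring
      · ring
    rw [this]
    exact (integrable_finsetSum _ fun j _ => int_aux (hU.mul (continuous_const.sub (continuous_a c i j)))
      (contDiff_pdv j hρ).continuous (pdv_cs j hρc) x).add p3
  have e3 : ∫ t, (U t - U x) * kn c ρ i x t = (∫ t, U t * kn c ρ i x t) - U x * ∫ t, kn c ρ i x t := by
    rw [← integral_const_mul, ← integral_sub kUint (kint.const_mul _)]
    congr 1
    ext t
    ring
  rw [e3, kn_integral_zero c hρ hρc, mul_zero, sub_zero, e1]

lemma pdv_zero_far {ε : ℝ} (hz : ∀ z, ε < ‖z‖ → ρ z = 0) (j : Fin N) {z : E N} (h : ε < ‖z‖) :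
    pdv j ρ z = 0 := by
  have : ρ =ᶠ[𝓝 z] fun _ => (0 : ℝ) := by
    have : ∀ᶠ y in 𝓝 z, ε < ‖y‖ := (continuous_norm.tendsto z).eventually_const_lt h
    filter_upwards [this] with y hy
    exact hz y hy
  unfold pdv
  rw [this.fderiv_eq]
  simp

lemma Cf_bound (hU : Continuous U) (hρ : ContDiff ℝ ∞ ρ) (hρc : HasCompactSupport ρ)
    (hρ0 : ∀ z, 0 ≤ ρ z) (hρ1 : ∫ z, ρ z = 1) {ε : ℝ} (hz : ∀ z, ε < ‖z‖ → ρ z = 0)
    {τ L D : ℝ} (hτ0 : 0 ≤ τ) (x : E N)
    (hτ : ∀ t, ‖x - t‖ ≤ ε → |U t - U x| ≤ τ)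
    (hL : ∀ i j t, ‖x - t‖ ≤ ε → |a c i j x - a c i j t| ≤ L * ε)
    (hD : ∀ i t, ‖x - t‖ ≤ ε → |d c i t| ≤ D) (i : Fin N) :
    |Cf c (U := U) (ρ := ρ) i x| ≤ τ * (L * ε * (∑ j, ∫ z, |pdv j ρ z|) + D) := by
  rw [Cf_eq c hU hρ hρc]
  have i1 : ∀ j, Integrable (fun t => |pdv j ρ (x - t)|) := fun j => by
    have := int_aux (continuous_const (y := (1 : ℝ))) (contDiff_pdv j hρ).continuous (pdv_cs j hρc) x
    simp only [one_mul] at this
    exact this.abs
  have i2 : Integrable (fun t => ρ (x - t)) := by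
    have := int_aux (continuous_const (y := (1 : ℝ))) hρ.continuous hρc x
    simpa only [one_mul] using this
  have hint : Integrable (fun t => τ * ((∑ j, L * ε * |pdv j ρ (x - t)|) + D * ρ (x - t))) :=
    ((integrable_finsetSum _ fun j _ => (i1 j).const_mul _).add (i2.const_mul _)).const_mul _
  have hb : ∀ t, ‖(U t - U x) * kn c ρ i x t‖ ≤
      τ * ((∑ j, L * ε * |pdv j ρ (x - t)|) + D * ρ (x - t)) := by
    intro t
    by_cases ht : ‖x - t‖ ≤ ε
    · rw [norm_mul]
      apply mul_le_mul (hτ t ht) _ (norm_nonneg _) hτ0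
      unfold kn
      refine (norm_add_le _ _).trans ?_
      apply add_le_add
      · refine (norm_sum_le _ _).trans ?_
        apply Finset.sum_le_sum
        intro j _
        rw [norm_mul]
        exact mul_le_mul_of_nonneg_right (hL i j t ht) (norm_nonneg _)
      · rw [norm_mul, Real.norm_of_nonneg (hρ0 _)]
        exact mul_le_mul_of_nonneg_right (hD i t ht) (hρ0 _)
    · push Not at ht
      have h1 : kn c ρ i x t = 0 := by
        unfold kn
        simp [hz _ ht, pdv_zero_far hz _ ht]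
      rw [h1, mul_zero, norm_zero]
      simp [hz _ ht, pdv_zero_far hz _ ht]
  have h1 := norm_integral_le_of_norm_le hint (ae_of_all _ hb)
  rw [Real.norm_eq_abs] at h1
  refine h1.trans (le_of_eq ?_)
  rw [integral_const_mul, integral_add (integrable_finsetSum _ fun j _ => (i1 j).const_mul _)
    (i2.const_mul _), integral_finsetSum _ fun j _ => (i1 j).const_mul _, integral_const_mul,
    integral_sub_left_eq_self ρ volume x, hρ1, mul_one, Finset.mul_sum]
  congr 2
  apply Finset.sum_congr rfl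
  intro j _
  rw [integral_const_mul, integral_sub_left_eq_self (fun z => |pdv j ρ z|) volume x]

end Comm

section Bump

/-- the rescaled mollifier -/
noncomputable def rs (ρ : E N → ℝ) (ε : ℝ) (z : E N) : ℝ := (ε⁻¹) ^ N * ρ (ε⁻¹ • z)

variable {ρ : E N → ℝ} {ε : ℝ} (hε : 0 < ε)

lemma rs_smooth (hρ : ContDiff ℝ ∞ ρ) : ContDiff ℝ ∞ (rs ρ ε) := by
  unfold rs
  exact contDiff_const.mul (hρ.comp ((ε⁻¹ • ContinuousLinearMap.id ℝ (E N)).contDiff))

include hε

lemma rs_zero (hz : ∀ z, 1 < ‖z‖ → ρ z = 0) {z : E N} (h : ε < ‖z‖) : rs ρ ε z = 0 := by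
  unfold rs
  rw [hz, mul_zero]
  rw [norm_smul, Real.norm_of_nonneg (by positivity)]
  rw [inv_mul_eq_div, one_lt_div hε]
  exact h

lemma rs_cs (hz : ∀ z, 1 < ‖z‖ → ρ z = 0) : HasCompactSupport (rs ρ ε) := by
  apply HasCompactSupport.of_support_subset_isCompact (K := Metric.closedBall 0 ε)
    (isCompact_closedBall _ _)
  intro z hz'
  simp only [Metric.mem_closedBall, dist_zero_right]
  by_contra hcon
  push Not at hcon
  exact hz' (rs_zero hε hz hcon)

lemma integral_rs (f : E N → ℝ) : ∫ z, (ε⁻¹) ^ N * f (ε⁻¹ • z) = ∫ z, f z := by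
  rw [integral_const_mul, Measure.integral_comp_smul]
  simp only [finrank_euclideanSpace, Fintype.card_fin, smul_eq_mul]
  rw [abs_of_pos (by positivity)]
  field_simp

omit hε in
lemma pdv_rs (hρ : ContDiff ℝ ∞ ρ) (j : Fin N) (z : E N) :
    pdv j (rs ρ ε) z = ε⁻¹ * ((ε⁻¹) ^ N * pdv j ρ (ε⁻¹ • z)) := by
  have h1 : HasFDerivAt ρ (fderiv ℝ ρ (ε⁻¹ • z)) (ε⁻¹ • z) :=
    (hρ.differentiable (by simp)).differentiableAt.hasFDerivAt
  have h2 : HasFDerivAt (fun y : E N => ε⁻¹ • y) (ε⁻¹ • ContinuousLinearMap.id ℝ (E N)) z :=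
    (ε⁻¹ • ContinuousLinearMap.id ℝ (E N)).hasFDerivAt
  have h3 := ((h1.comp z h2).const_mul ((ε⁻¹) ^ N)).fderiv
  unfold pdv
  have e1 : fderiv ℝ (rs ρ ε) z = (ε⁻¹) ^ N • (fderiv ℝ ρ (ε⁻¹ • z)).comp
      (ε⁻¹ • ContinuousLinearMap.id ℝ (E N)) := h3
  rw [e1]
  simp
  ring

lemma integral_abs_pdv_rs (hρ : ContDiff ℝ ∞ ρ) (j : Fin N) :
    ∫ z, |pdv j (rs ρ ε) z| = ε⁻¹ * ∫ z, |pdv j ρ z| := by
  rw [← integral_rs hε (fun z => |pdv j ρ z|), ← integral_const_mul]
  congr 1
  ext z
  rw [pdv_rs hρ, abs_mul, abs_mul, abs_of_pos (by positivity : 0 < ε⁻¹),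
    abs_of_pos (by positivity : 0 < (ε⁻¹) ^ N)]

end Bump

/-- a fixed mollifier -/
lemma exists_moll (N : ℕ) : ∃ ρ : E N → ℝ, ContDiff ℝ ∞ ρ ∧ (∀ z, 0 ≤ ρ z) ∧ ∫ z, ρ z = 1 ∧
    ∀ z, 1 < ‖z‖ → ρ z = 0 := by
  let b : ContDiffBump (0 : E N) := ⟨1 / 2, 1, by norm_num, by norm_num⟩
  refine ⟨b.normed volume, b.contDiff_normed, b.nonneg_normed, b.integral_normed, ?_⟩
  intro z hz
  have : z ∉ Function.support (b.normed volume) := by
    rw [b.support_normed_eq]
    simp only [Metric.mem_ball, dist_zero_right, not_lt]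
    exact hz.le
  simpa using this

lemma unif_cont {R : ℝ} {f : E N → ℝ} (hf : Continuous f) {η : ℝ} (hη : 0 < η) :
    ∃ δ > 0, ∀ x t, ‖x‖ ≤ R → ‖t‖ ≤ R → ‖x - t‖ ≤ δ → |f t - f x| ≤ η := by
  have huc : UniformContinuousOn f (Metric.closedBall (0 : E N) R) :=
    (isCompact_closedBall _ _).uniformContinuousOn_of_continuous hf.continuousOn
  rw [Metric.uniformContinuousOn_iff] at huc
  obtain ⟨δ, hδ, h⟩ := huc η hη
  refine ⟨δ / 2, by positivity, ?_⟩
  intro x t hx ht hxt
  have := h t (by simpa using ht) x (by simpa using hx) (by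
    rw [dist_comm, dist_eq_norm]; linarith)
  rw [Real.dist_eq] at this
  exact this.le

lemma lip_bound {R : ℝ} {f : E N → ℝ} (hf : ContDiff ℝ ∞ f) :
    ∃ L ≥ 0, ∀ x t, ‖x‖ ≤ R → ‖t‖ ≤ R → |f x - f t| ≤ L * ‖x - t‖ := by
  obtain ⟨L, hL⟩ := (isCompact_closedBall (0 : E N) R).exists_bound_of_continuousOn
    (f := fderiv ℝ f) (hf.continuous_fderiv (by simp)).continuousOn
  refine ⟨max L 0, le_max_right _ _, ?_⟩
  intro x t hx ht
  have := Convex.norm_image_sub_le_of_norm_fderiv_le (𝕜 := ℝ) (f := f) (C := max L 0)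
    (s := Metric.closedBall (0 : E N) R) (x := t) (y := x)
    (fun y _ => (hf.differentiable (by simp)).differentiableAt)
    (fun y hy => (hL y hy).trans (le_max_left _ _)) (convex_closedBall _ _)
    (by simpa using ht) (by simpa using hx)
  exact this

lemma cv_sub_le {U ρ : E N → ℝ} (hU : Continuous U) (hρ : ContDiff ℝ ∞ ρ) (hρc : HasCompactSupport ρ)
    (hρ0 : ∀ z, 0 ≤ ρ z) (hρ1 : ∫ z, ρ z = 1) {ε : ℝ} (hz : ∀ z, ε < ‖z‖ → ρ z = 0)
    {τ : ℝ} (x : E N) (hτ : ∀ t, ‖x - t‖ ≤ ε → |U t - U x| ≤ τ) :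
    |cv U ρ x - U x| ≤ τ := by
  have i2 : Integrable (fun t => ρ (x - t)) := by
    have := int_aux (continuous_const (y := (1 : ℝ))) hρ.continuous hρc x
    simpa only [one_mul] using this
  have i3 : Integrable (fun t => U t * ρ (x - t)) := int_aux hU hρ.continuous hρc x
  have e1 : cv U ρ x - U x = ∫ t, (U t - U x) * ρ (x - t) := by
    have : ∫ t, (U t - U x) * ρ (x - t) = (∫ t, U t * ρ (x - t)) - U x * ∫ t, ρ (x - t) := by
      rw [← integral_const_mul, ← integral_sub i3 (i2.const_mul _)]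
      congr 1
      ext t
      ring
    rw [this, integral_sub_left_eq_self ρ volume x, hρ1, mul_one]
    rfl
  rw [e1, ← Real.norm_eq_abs]
  refine (norm_integral_le_of_norm_le (i2.const_mul τ) (ae_of_all _ fun t => ?_)).trans ?_
  · by_cases ht : ‖x - t‖ ≤ ε
    · rw [norm_mul, Real.norm_of_nonneg (hρ0 _)]
      exact mul_le_mul_of_nonneg_right (hτ t ht) (hρ0 _)
    · push Not at ht
      simp [hz _ ht]
  · rw [integral_const_mul, integral_sub_left_eq_self ρ volume x, hρ1, mul_one]

end Moll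

open Moll

theorem stmt_M : Stmt_M := by
  intro N c U h hU hh hU0 hw R η hR hη
  obtain ⟨ρ, hρ, hρ0, hρ1, hρz⟩ := exists_moll N
  -- Lipschitz constants of the coefficients
  have hLij : ∀ i j : Fin N, ∃ L ≥ 0, ∀ x t, ‖x‖ ≤ R + 1 → ‖t‖ ≤ R + 1 →
      |a c i j x - a c i j t| ≤ L * ‖x - t‖ := fun i j => lip_bound (smooth_a c i j)
  choose Lf hLf0 hLf using hLij
  set L : ℝ := ∑ i, ∑ j, Lf i j with hLdef
  have hL0 : 0 ≤ L := Finset.sum_nonneg fun i _ => Finset.sum_nonneg fun j _ => hLf0 i j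
  have hLle : ∀ i j, Lf i j ≤ L := fun i j =>
    (Finset.single_le_sum (f := fun j => Lf i j) (fun j _ => hLf0 i j) (Finset.mem_univ j)).trans
      (Finset.single_le_sum (f := fun i => ∑ j, Lf i j)
        (fun i _ => Finset.sum_nonneg fun j _ => hLf0 i j) (Finset.mem_univ i))
  have hDi : ∀ i : Fin N, ∃ D, ∀ t ∈ Metric.closedBall (0 : E N) (R + 1), ‖d c i t‖ ≤ D := fun i =>
    (isCompact_closedBall _ _).exists_bound_of_continuousOn (continuous_d c i).continuousOn
  choose Df hDf using hDi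
  set D : ℝ := ∑ i, |Df i| with hDdef
  have hD0 : 0 ≤ D := Finset.sum_nonneg fun i _ => abs_nonneg _
  have hDle : ∀ i, Df i ≤ D := fun i => (le_abs_self _).trans
    (Finset.single_le_sum (f := fun i => |Df i|) (fun i _ => abs_nonneg _) (Finset.mem_univ i))
  set S : ℝ := ∑ j, ∫ z, |pdv j ρ z| with hSdef
  have hS0 : 0 ≤ S := Finset.sum_nonneg fun j _ => integral_nonneg fun z => abs_nonneg _
  set B : ℝ := N * (L * S + D) with hBdef
  have hB0 : 0 ≤ B := by positivity
  set τ : ℝ := η / (1 + B) with hτdef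
  have hτ : 0 < τ := by positivity
  have hτη : τ ≤ η := div_le_self hη.le (by linarith)
  have hτB : τ * B ≤ η := by
    rw [hτdef, div_mul_eq_mul_div, div_le_iff₀ (by positivity)]
    nlinarith
  obtain ⟨δ₁, hδ₁, hu1⟩ := unif_cont (R := R + 1) hU hτ
  obtain ⟨δ₂, hδ₂, hu2⟩ := unif_cont (R := R + 1) hh hτ
  set ε : ℝ := min 1 (min δ₁ δ₂) with hεdef
  have hε : 0 < ε := by positivity
  have hε1 : ε ≤ 1 := min_le_left _ _
  have hεδ₁ : ε ≤ δ₁ := (min_le_right _ _).trans (min_le_left _ _)
  have hεδ₂ : ε ≤ δ₂ := (min_le_right _ _).trans (min_le_right _ _)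
  -- the mollifier
  set σ : E N → ℝ := rs ρ ε with hσdef
  have s1 : ContDiff ℝ ∞ σ := rs_smooth hρ
  have s2 : HasCompactSupport σ := rs_cs hε hρz
  have s3 : ∀ z, 0 ≤ σ z := fun z => mul_nonneg (by positivity) (hρ0 _)
  have s4 : ∫ z, σ z = 1 := by
    rw [← hρ1, ← integral_rs hε ρ]
    rfl
  have s5 : ∀ z, ε < ‖z‖ → σ z = 0 := fun z hz => rs_zero hε hρz hz
  have near : ∀ x t : E N, ‖x‖ ≤ R → ‖x - t‖ ≤ ε → ‖t‖ ≤ R + 1 := by
    intro x t hx hxt
    calc ‖t‖ = ‖x - (x - t)‖ := by rw [sub_sub_cancel]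
      _ ≤ ‖x‖ + ‖x - t‖ := norm_sub_le _ _
      _ ≤ R + 1 := by linarith
  refine ⟨cv U σ, contDiff_cv hU s1 s2, ?_, ?_, ?_⟩
  · intro x
    exact integral_nonneg fun t => mul_nonneg (hU0 t) (s3 _)
  · intro x hx
    have hx' : ‖x‖ ≤ R := by simpa using hx
    refine (cv_sub_le hU s1 s2 s3 s4 s5 (τ := τ) x ?_).trans hτη
    intro t ht
    exact hu1 x t (by linarith) (near x t hx' ht) (ht.trans hεδ₁)
  intro ψ hψ hψc hψR
  have hibp := ibp_W c hU s1 s2 hw hψ hψc
  have hψcont : ∀ i, Continuous (pdv i ψ) := fun i => by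
    unfold pdv
    exact (hψ.continuous_fderiv (by simp)).clm_apply continuous_const
  have out1 : ∀ x, ¬ ‖x‖ < R → ψ x = 0 := by
    intro x hx
    apply image_eq_zero_of_notMem_tsupport
    intro h'
    exact hx (by simpa using hψR h')
  have out2 : ∀ i x, ¬ ‖x‖ < R → pdv i ψ x = 0 := by
    intro i x hx
    apply image_eq_zero_of_notMem_tsupport
    intro h'
    apply hx
    have : tsupport (pdv i ψ) ⊆ tsupport ψ := tsupport_fderiv_apply_subset ℝ (e i)
    simpa using hψR (this h')
  have hCcont : ∀ i, Continuous (Cf c (U := U) (ρ := σ) i) := by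
    intro i
    have h1 : Continuous (fun x => (c.A x (gradient (cv U σ) x)) i) := by
      simp only [A_apply, gradient_apply]
      exact continuous_finsetSum _ fun j _ =>
        ((contDiff_pdv j (contDiff_cv hU s1 s2)).continuous).mul (continuous_a c i j)
    exact h1.sub (contDiff_W c hU s1 s2 i).continuous
  have hWi : ∀ i, Integrable (fun x => W c U σ i x * pdv i ψ x) := fun i =>
    ((contDiff_W c hU s1 s2 i).continuous.mul (hψcont i)).integrable_of_hasCompactSupport
      (pdv_cs i hψc).mul_left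
  have hCi : ∀ i, Integrable (fun x => Cf c (U := U) (ρ := σ) i x * pdv i ψ x) := fun i =>
    ((hCcont i).mul (hψcont i)).integrable_of_hasCompactSupport (pdv_cs i hψc).mul_left
  have hsplit : ∫ x, ⟪c.A x (gradient (cv U σ) x), gradient ψ x⟫_ℝ =
      (∫ x, ∑ i, W c U σ i x * pdv i ψ x) + ∫ x, ∑ i, Cf c (U := U) (ρ := σ) i x * pdv i ψ x := by
    rw [← integral_add (integrable_finsetSum _ fun i _ => hWi i)
      (integrable_finsetSum _ fun i _ => hCi i)]
    congr 1
    ext x
    rw [← Finset.sum_add_distrib, PiLp.inner_apply]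
    apply Finset.sum_congr rfl
    intro i _
    rw [gradient_apply]
    simp only [RCLike.inner_apply, conj_trivial]
    unfold Cf
    ring
  have hcvh : Continuous (cv h σ) := (contDiff_cv hh s1 s2).continuous
  have k1 : Integrable (fun x => cv h σ x * ψ x) :=
    (hcvh.mul hψ.continuous).integrable_of_hasCompactSupport hψc.mul_left
  have k2 : Integrable (fun x => h x * ψ x) :=
    (hh.mul hψ.continuous).integrable_of_hasCompactSupport hψc.mul_left
  have htot : (∫ x, ⟪c.A x (gradient (cv U σ) x), gradient ψ x⟫_ℝ) + ∫ x, h x * ψ x =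
      (∫ x, (h x - cv h σ x) * ψ x) + ∫ x, ∑ i, Cf c (U := U) (ρ := σ) i x * pdv i ψ x := by
    rw [hsplit, hibp]
    have : ∫ x, (h x - cv h σ x) * ψ x = (∫ x, h x * ψ x) - ∫ x, cv h σ x * ψ x := by
      rw [← integral_sub k2 k1]
      congr 1
      ext x
      ring
    rw [this]
    ring
  rw [htot]
  have hψi : Integrable (fun x => |ψ x|) :=
    (hψ.continuous.integrable_of_hasCompactSupport hψc).abs
  have hgc : Continuous (fun x => ‖gradient ψ x‖) := by
    unfold gradient
    exact ((InnerProductSpace.toDual ℝ (E N)).symm.continuous.comp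
      (hψ.continuous_fderiv (by simp))).norm
  have hgs : HasCompactSupport (fun x => ‖gradient ψ x‖) := by
    apply (hψc.fderiv (𝕜 := ℝ)).mono
    intro x hx
    simp only [Function.mem_support, ne_eq, norm_eq_zero] at hx ⊢
    intro h'
    apply hx
    unfold gradient
    rw [h', map_zero]
  have hgi : Integrable (fun x => ‖gradient ψ x‖) := hgc.integrable_of_hasCompactSupport hgs
  have b1 : |∫ x, (h x - cv h σ x) * ψ x| ≤ τ * ∫ x, |ψ x| := by
    rw [← Real.norm_eq_abs, ← integral_const_mul]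
    apply norm_integral_le_of_norm_le (hψi.const_mul τ) (ae_of_all _ _)
    intro x
    by_cases hx : ‖x‖ < R
    · rw [norm_mul]
      apply mul_le_mul_of_nonneg_right _ (norm_nonneg _)
      rw [Real.norm_eq_abs, abs_sub_comm]
      apply cv_sub_le hh s1 s2 s3 s4 s5
      intro t ht
      exact hu2 x t (by linarith) (near x t hx.le ht) (ht.trans hεδ₂)
    · simp [out1 x hx]
  have b2 : |∫ x, ∑ i, Cf c (U := U) (ρ := σ) i x * pdv i ψ x| ≤ η * ∫ x, ‖gradient ψ x‖ := by
    rw [← Real.norm_eq_abs, ← integral_const_mul]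
    apply norm_integral_le_of_norm_le (hgi.const_mul η) (ae_of_all _ _)
    intro x
    by_cases hx : ‖x‖ < R
    · have hCb : ∀ i, |Cf c (U := U) (ρ := σ) i x| ≤ τ * (L * S + D) := by
        intro i
        have := Cf_bound c hU s1 s2 s3 s4 s5 (τ := τ) (L := L) (D := D) hτ.le x
          (fun t ht => hu1 x t (by linarith) (near x t hx.le ht) (ht.trans hεδ₁))
          (fun i j t ht => (hLf i j x t (by linarith) (near x t hx.le ht)).trans (by
            apply mul_le_mul (hLle i j) ht (norm_nonneg _) hL0))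
          (fun i t ht => (hDf i t (by simpa using near x t hx.le ht)).trans (hDle i)) i
        have hs : ∑ j, ∫ z, |pdv j σ z| = ε⁻¹ * S := by
          rw [hSdef, Finset.mul_sum]
          exact Finset.sum_congr rfl fun j _ => integral_abs_pdv_rs hε hρ j
        rw [hs] at this
        refine this.trans (le_of_eq ?_)
        have : L * ε * (ε⁻¹ * S) = L * S := by field_simp
        rw [this]
      calc ‖∑ i, Cf c (U := U) (ρ := σ) i x * pdv i ψ x‖
          ≤ ∑ i : Fin N, τ * (L * S + D) * ‖gradient ψ x‖ := by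
            refine (norm_sum_le _ _).trans (Finset.sum_le_sum fun i _ => ?_)
            rw [norm_mul]
            apply mul_le_mul (hCb i) _ (norm_nonneg _) (by positivity)
            rw [← gradient_apply]
            exact PiLp.norm_apply_le _ i
        _ = (τ * B) * ‖gradient ψ x‖ := by
            rw [Finset.sum_const, Finset.card_univ, Fintype.card_fin, nsmul_eq_mul, hBdef]
            ring
        _ ≤ η * ‖gradient ψ x‖ := mul_le_mul_of_nonneg_right hτB (norm_nonneg _)
    · simp only [out2 _ x hx, mul_zero, Finset.sum_const_zero, norm_zero]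
      positivity
  calc |(∫ x, (h x - cv h σ x) * ψ x) + ∫ x, ∑ i, Cf c (U := U) (ρ := σ) i x * pdv i ψ x|
      ≤ |∫ x, (h x - cv h σ x) * ψ x| + |∫ x, ∑ i, Cf c (U := U) (ρ := σ) i x * pdv i ψ x| :=
        abs_add_le _ _
    _ ≤ τ * (∫ x, |ψ x|) + η * ∫ x, ‖gradient ψ x‖ := add_le_add b1 b2
    _ ≤ η * (∫ x, |ψ x|) + η * ∫ x, ‖gradient ψ x‖ := by
        gcongr
    _ = _ := by ring

end Pool.Agent.MP909527
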