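import Pool.Agent.Work.MP_909527_an.Interface

/-!
# MP_909527_an, block G1: the coefficients attached to a metric
-/

set_option autoImplicit false

open MeasureTheory Set Filter Topology
open scoped ContDiff InnerProductSpace

namespace Pool.Agent.MP909527

namespace Geo

variable {N : ℕ} (M : NormalMetric N)

lemma g_inj (x : E N) : Function.Injective (M.g x) := by
  intro v w hvw
  by_contra hne
  have h1 : v - w ≠ 0 := sub_ne_zero.2 hne
  have h2 := M.pos x (v - w) h1
  have h3 : M.g x (v - w) = 0 := by rw [map_sub, hvw, sub_self]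
  rw [h3] at h2
  simp at h2

lemma finrank_dual : Module.finrank ℝ (E N) = Module.finrank ℝ (E N →L[ℝ] ℝ) :=
  (InnerProductSpace.toDual ℝ (E N)).toLinearEquiv.finrank_eq

/-- the metric as an equivalence with the dual. -/
noncomputable def ge (x : E N) : E N ≃L[ℝ] (E N →L[ℝ] ℝ) :=
  (LinearMap.linearEquivOfInjective (M.g x).toLinearMap (g_inj M x) finrank_dual).toContinuousLinearEquiv

lemma ge_coe (x : E N) : ((ge M x : E N ≃L[ℝ] (E N →L[ℝ] ℝ)) : E N →L[ℝ] (E N →L[ℝ] ℝ)) = M.g x := by
  ext v w
  rfl

lemma inverse_eq (x : E N) :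
    (M.g x).inverse = ((ge M x).symm : (E N →L[ℝ] ℝ) →L[ℝ] E N) := by
  rw [← ge_coe]
  exact ContinuousLinearMap.inverse_equiv _

lemma g_inverse (x : E N) (α : E N →L[ℝ] ℝ) : M.g x ((M.g x).inverse α) = α := by
  rw [inverse_eq]
  have : M.g x ((ge M x).symm α) = (ge M x) ((ge M x).symm α) := rfl
  simp [this]

lemma inverse_g (x v : E N) : (M.g x).inverse (M.g x v) = v := by
  apply g_inj M x
  rw [g_inverse]

lemma smooth_inverse : ContDiff ℝ ∞ (fun x => (M.g x).inverse) := by
  rw [contDiff_iff_contDiffAt]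
  intro x
  have h1 : ContDiffAt ℝ ∞ ContinuousLinearMap.inverse (M.g x) := by
    rw [← ge_coe]
    exact contDiffAt_map_inverse _
  exact h1.comp x M.smooth.contDiffAt

/-- the Gram matrix -/
noncomputable def Gm (x : E N) : Matrix (Fin N) (Fin N) ℝ := Matrix.of fun i j => M.g x (e i) (e j)

lemma e_decomp (v : E N) : v = ∑ j, v j • (e j : E N) := by
  ext i
  simp [e, Finset.sum_apply, Pi.single_apply]

lemma g_eq_sum (x v w : E N) : M.g x v w = ∑ i, ∑ j, v i * Gm M x i j * w j := by
  conv_lhs => rw [e_decomp v, e_decomp w]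
  simp only [map_sum, map_smul, sum_apply, smul_apply, smul_eq_mul, Gm, Matrix.of_apply,
    Finset.mul_sum]
  rw [Finset.sum_comm]
  apply Finset.sum_congr rfl; intro i _
  apply Finset.sum_congr rfl; intro j _
  ring

lemma Gm_posDef (x : E N) : (Gm M x).PosDef := by
  apply Matrix.PosDef.of_dotProduct_mulVec_pos
  · apply Matrix.IsHermitian.ext
    intro i j
    simp [Gm, M.symm x (e i) (e j)]
  · intro v hv
    have h1 : (WithLp.toLp 2 v : E N) ≠ 0 := by
      intro h
      apply hv
      ext i
      have := congrFun (congrArg WithLp.ofLp h) i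
      simpa using this
    have h2 := M.pos x _ h1
    rw [g_eq_sum] at h2
    simp only [dotProduct, Matrix.mulVec, Finset.mul_sum, Pi.star_apply, star_trivial]
    have h3 : ∑ i, ∑ j, v i * (Gm M x i j * v j) =
        ∑ i, ∑ j, (WithLp.toLp 2 v : E N) i * Gm M x i j * (WithLp.toLp 2 v : E N) j := by
      apply Finset.sum_congr rfl; intro i _
      apply Finset.sum_congr rfl; intro j _
      ring
    rw [h3]
    exact h2

lemma det_pos (x : E N) : 0 < (Gm M x).det := (Gm_posDef M x).det_pos

lemma dens_eq (x : E N) : M.dens x = √(Gm M x).det := rfl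

lemma dens_pos (x : E N) : 0 < M.dens x := Real.sqrt_pos.2 (det_pos M x)

lemma smooth_entry (i j : Fin N) : ContDiff ℝ ∞ (fun x => Gm M x i j) :=
  (M.smooth.clm_apply contDiff_const).clm_apply contDiff_const

lemma smooth_det : ContDiff ℝ ∞ (fun x => (Gm M x).det) := by
  simp only [Matrix.det_apply']
  apply ContDiff.sum
  intro σ _
  apply contDiff_const.mul
  apply contDiff_prod
  intro i _
  exact smooth_entry M _ _

lemma smooth_dens : ContDiff ℝ ∞ M.dens := by
  have : M.dens = fun x => √(Gm M x).det := rfl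
  rw [this]
  exact (smooth_det M).sqrt fun x => (det_pos M x).ne'

/-- The matrix field `A`. -/
noncomputable def Af (x : E N) : E N →L[ℝ] E N :=
  M.dens x • (M.g x).inverse.comp (innerSL ℝ)

lemma Af_apply (x v : E N) : Af M x v = M.dens x • (M.g x).inverse (innerSL ℝ v) := rfl

lemma inner_inverse (x : E N) (v z : E N) :
    ⟪(M.g x).inverse (innerSL ℝ v), z⟫_ℝ =
      M.g x ((M.g x).inverse (innerSL ℝ v)) ((M.g x).inverse (innerSL ℝ z)) := by
  rw [M.symm, g_inverse]
  simp [real_inner_comm]

end Geo

open Geo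

theorem stmt_G1 : Stmt_G1 := by
  intro N M
  refine ⟨⟨Af M, M.dens, ?_, smooth_dens M, ?_, ?_, dens_pos M⟩, fun x => rfl, fun x v => rfl⟩
  · exact (smooth_dens M).smul ((smooth_inverse M).clm_comp contDiff_const)
  · intro x v z
    rw [Af_apply, Af_apply, real_inner_smul_left, real_inner_smul_right, inner_inverse,
      real_inner_comm, inner_inverse, M.symm]
  · intro x v hv
    rw [Af_apply, real_inner_smul_left, inner_inverse]
    apply mul_pos (dens_pos M x)
    apply M.pos
    intro h
    apply hv
    have h2 := g_inverse M x (innerSL ℝ v)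
    rw [h, map_zero] at h2
    have h3 := congrArg (fun f : E N →L[ℝ] ℝ => f v) h2
    simp only [zero_apply, innerSL_apply_apply] at h3
    exact inner_self_eq_zero.1 h3.symm

end Pool.Agent.MP909527
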